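import Pool.Agent.Y489.GE.Stm

set_option autoImplicit false

open Set Topology unitInterval

namespace Pool.Agent.Y165.GE

open Pool.Agent.Y489.GE

theorem t_CG : S_CG := by
  intro X _ r m hm N _ δ hδ x hx hE hpos
  have ha : ∀ i, dist (x i) (x (i + 1)) ≤ r := fun i => (hx i).trans hδ
  set a : ZMod N → ℝ := fun i => dist (x i) (x (i + 1)) with hadef
  set y : ZMod N → X := fun i => m (x i) (x (i + 1)) (1 / 2) with hy
  have half : (1 / 2 : ℝ) ∈ Icc (0 : ℝ) 1 := by constructor <;> norm_num
  have i0 : (0 : ℝ) ∈ Icc (0 : ℝ) 1 := by constructor <;> norm_num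
  have i1 : (1 : ℝ) ∈ Icc (0 : ℝ) 1 := by constructor <;> norm_num
  have d1 : ∀ i, ∀ t ∈ Icc (0 : ℝ) 1, dist (m (x i) (x (i + 1)) t) (x (i + 1)) =
      (1 - t) * a i := by
    intro i t ht
    have h := hm.dist_eq _ _ (ha i) t ht 1 i1
    rw [hm.one _ _ (ha i), abs_sub_comm, abs_of_nonneg (by linarith [ht.2])] at h
    exact h
  have d0 : ∀ i, ∀ t ∈ Icc (0 : ℝ) 1, dist (x i) (m (x i) (x (i + 1)) t) = t * a i := by
    intro i t ht
    have h := hm.dist_eq _ _ (ha i) 0 i0 t ht
    rw [hm.zero _ _ (ha i), abs_sub_comm, abs_of_nonneg (by linarith [ht.1])] at h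
    rw [h]
    ring
  have hyy : ∀ i, dist (y i) (y (i + 1)) ≤ (a i + a (i + 1)) / 2 := by
    intro i
    have h1 := dist_triangle (y i) (x (i + 1)) (y (i + 1))
    have h2 := d1 i (1 / 2) half
    have h3 := d0 (i + 1) (1 / 2) half
    rw [hy] at h1 ⊢
    simp only at h1 ⊢
    linarith
  have hsq : ∀ i, dist (y i) (y (i + 1)) ^ 2 ≤ ((a i + a (i + 1)) / 2) ^ 2 := fun i =>
    pow_le_pow_left₀ dist_nonneg (hyy i) 2
  have hshift : ∑ i : ZMod N, a (i + 1) ^ 2 = ∑ i : ZMod N, a i ^ 2 :=
    Equiv.sum_comp (Equiv.addRight (1 : ZMod N)) (fun i => a i ^ 2)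
  have hE1 : ∑ i : ZMod N, dist (y i) (y (i + 1)) ^ 2 = ∑ i : ZMod N, a i ^ 2 := hE
  have hsum : ∑ i : ZMod N, ((((a i + a (i + 1)) / 2) ^ 2 - dist (y i) (y (i + 1)) ^ 2) +
      (a i - a (i + 1)) ^ 2 / 4) = 0 := by
    have h1 : ∀ i : ZMod N, (((a i + a (i + 1)) / 2) ^ 2 - dist (y i) (y (i + 1)) ^ 2) +
      (a i - a (i + 1)) ^ 2 / 4 = (1 / 2) * a i ^ 2 + (1 / 2) * a (i + 1) ^ 2 -
        dist (y i) (y (i + 1)) ^ 2 := by
      intro i
      ring
    rw [Finset.sum_congr rfl fun i _ => h1 i, Finset.sum_sub_distrib, Finset.sum_add_distrib,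
      ← Finset.mul_sum, ← Finset.mul_sum, hshift, hE1]
    ring
  have hz := (Finset.sum_eq_zero_iff_of_nonneg (fun i _ =>
    add_nonneg (sub_nonneg.2 (hsq i)) (by positivity))).1 hsum
  have haa : ∀ i, a (i + 1) = a i := by
    intro i
    have h1 := hz i (Finset.mem_univ i)
    have h2 : (a i - a (i + 1)) ^ 2 = 0 := by
      have := sub_nonneg.2 (hsq i)
      nlinarith [sq_nonneg (a i - a (i + 1))]
    have h3 := pow_eq_zero_iff (two_ne_zero) |>.1 h2
    linarith
  have hac : ∀ i, a i = a 0 := by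
    have h1 : ∀ n : ℕ, a (n : ZMod N) = a 0 := by
      intro n
      induction n with
      | zero => rw [Nat.cast_zero]
      | succ n ih => rw [Nat.cast_succ, haa, ih]
    intro i
    rw [← ZMod.natCast_zmod_val i]
    exact h1 _
  set c := a 0 with hc
  have hcnn : 0 ≤ c := dist_nonneg
  have hcpos : 0 < c := by
    rcases hcnn.eq_or_lt with h | h
    · exfalso
      have : En N x = 0 := by
        unfold En
        apply Finset.sum_eq_zero
        intro i _
        have h2 := hac i
        rw [← h] at h2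
        have h3 : dist (x i) (x (i + 1)) = 0 := h2
        rw [h3]
        norm_num
      linarith
    · exact h
  have hyc : ∀ i, dist (y i) (y (i + 1)) = c := by
    intro i
    have h1 := hz i (Finset.mem_univ i)
    rw [hac i, hac (i + 1)] at h1
    have h2 : dist (y i) (y (i + 1)) ^ 2 = c ^ 2 := by
      nlinarith
    exact (pow_left_inj₀ dist_nonneg hcnn two_ne_zero).1 h2
  -- the curve
  set γ : ℝ → X := fun t => m (x ((⌊t / c⌋ : ℤ) : ZMod N)) (x (((⌊t / c⌋ : ℤ) : ZMod N) + 1))
    (t / c - ⌊t / c⌋) with hγ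
  have key : ∀ (n : ℤ) (t : ℝ), n * c ≤ t → t ≤ (n + 1) * c →
      γ t = m (x (n : ZMod N)) (x ((n : ZMod N) + 1)) (t / c - n) := by
    intro n t h1 h2
    rcases h2.eq_or_lt with h3 | h3
    · have h4 : t / c = ((n + 1 : ℤ) : ℝ) := by
        rw [h3]
        push_cast
        field_simp
      have h5 : ⌊t / c⌋ = n + 1 := by
        rw [h4, Int.floor_intCast]
      rw [hγ]
      simp only
      rw [h5, h4]
      have e1 : (((n + 1 : ℤ) : ℝ) - ((n + 1 : ℤ) : ℝ)) = 0 := by ring
      have e2 : (((n + 1 : ℤ) : ℝ) - (n : ℝ)) = 1 := by push_cast; ring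
      rw [e1, e2, hm.zero _ _ (ha _), hm.one _ _ (ha _)]
      push_cast
      rfl
    · have h5 : ⌊t / c⌋ = n := by
        rw [Int.floor_eq_iff, le_div_iff₀ hcpos, div_lt_iff₀ hcpos]
        exact ⟨h1, h3⟩
      rw [hγ]
      simp only
      rw [h5]
  have mem : ∀ (n : ℤ) (t : ℝ), n * c ≤ t → t ≤ (n + 1) * c →
      t / c - n ∈ Icc (0 : ℝ) 1 := by
    intro n t h1 h2
    constructor
    · have : (n : ℝ) ≤ t / c := by rwa [le_div_iff₀ hcpos]
      linarith
    · have : t / c ≤ n + 1 := by rwa [div_le_iff₀ hcpos]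
      linarith
  have same : ∀ (n : ℤ) (s t : ℝ), n * c ≤ s → s ≤ t → t ≤ (n + 1) * c →
      dist (γ s) (γ t) = t - s := by
    intro n s t h1 h2 h3
    rw [key n s h1 (h2.trans h3), key n t (h1.trans h2) h3,
      hm.dist_eq _ _ (ha _) _ (mem n s h1 (h2.trans h3)) _ (mem n t (h1.trans h2) h3)]
    have e : dist (x (n : ZMod N)) (x ((n : ZMod N) + 1)) = c := hac _
    rw [e, abs_sub_comm]
    have e2 : t / c - n - (s / c - n) = (t - s) / c := by ring
    rw [e2, abs_of_nonneg (div_nonneg (by linarith) hcnn)]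
    field_simp
  have mid : ∀ n : ℤ, γ ((n + 1 / 2) * c) = y (n : ZMod N) := by
    intro n
    rw [key n _ (by nlinarith) (by nlinarith)]
    have e : ((n : ℝ) + 1 / 2) * c / c - n = 1 / 2 := by
      field_simp
      ring
    rw [e]
  have main : ∀ s t : ℝ, s ≤ t → t - s ≤ c / 2 → dist (γ s) (γ t) = t - s := by
    intro s t hst hts
    set n := ⌊s / c⌋ with hn
    have h1 : (n : ℝ) * c ≤ s := by
      rw [← le_div_iff₀ hcpos]
      exact Int.floor_le _
    have h2 : s < (n + 1) * c := by
      rw [← div_lt_iff₀ hcpos]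
      exact Int.lt_floor_add_one _
    rcases le_or_gt t ((n + 1) * c) with h3 | h3
    · exact same n s t h1 hst h3
    · have e1 : (((n + 1 : ℤ)) : ℝ) = (n : ℝ) + 1 := by push_cast; ring
      have a1 : dist (γ s) (γ ((n + 1) * c)) = (n + 1) * c - s := same n _ _ h1 h2.le le_rfl
      have a2 : dist (γ ((n + 1) * c)) (γ t) = t - (n + 1) * c := by
        apply same (n + 1)
        · rw [e1]
        · exact h3.le
        · rw [e1]
          nlinarith
      have b1 : dist (y (n : ZMod N)) (γ s) = s - (n + 1 / 2) * c := by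
        rw [← mid n]
        apply same n
        · nlinarith
        · nlinarith
        · exact h2.le
      have b2 : dist (γ t) (y ((n : ZMod N) + 1)) = (n + 3 / 2) * c - t := by
        have e3 := mid (n + 1)
        rw [e1] at e3
        push_cast at e3
        rw [← e3]
        have e4 : ((n : ℝ) + 1 + 1 / 2) * c = (n + 3 / 2) * c := by ring
        rw [e4]
        apply same (n + 1)
        · rw [e1]
          exact h3.le
        · nlinarith
        · rw [e1]
          nlinarith
      apply le_antisymm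
      · have := dist_triangle (γ s) (γ ((n + 1) * c)) (γ t)
        linarith
      · have t1 := dist_triangle (y (n : ZMod N)) (γ s) (y ((n : ZMod N) + 1))
        have t2 := dist_triangle (γ s) (γ t) (y ((n : ZMod N) + 1))
        have t3 := hyc (n : ZMod N)
        linarith
  refine ⟨γ, N * c, ?_, ?_, ?_, c / 2, by positivity, ?_⟩
  · have : (0 : ℝ) < N := by exact_mod_cast Nat.pos_of_ne_zero (NeZero.ne N)
    positivity
  · exact mul_le_mul_of_nonneg_left (hx 0) (Nat.cast_nonneg N)
  · intro t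
    have e1 : (t + N * c) / c = t / c + ((N : ℤ) : ℝ) := by
      push_cast
      field_simp
    rw [hγ]
    simp only
    rw [e1, Int.floor_add_intCast]
    have e2 : (((⌊t / c⌋ + (N : ℤ) : ℤ)) : ZMod N) = ((⌊t / c⌋ : ℤ) : ZMod N) := by
      push_cast
      simp
    rw [e2]
    congr 1
    push_cast
    ring
  · intro s t hst
    rcases le_total s t with h | h
    · rw [main s t h (by rw [abs_sub_comm, abs_of_nonneg (by linarith)] at hst; exact hst),
        abs_sub_comm, abs_of_nonneg (by linarith)]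
    · rw [dist_comm, main t s h (by rw [abs_of_nonneg (by linarith)] at hst; exact hst),
        abs_of_nonneg (by linarith)]

end Pool.Agent.Y165.GE
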